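import Pool.Agent.H12.EV.Model

/-!
Lowering the barrier slightly changes the model probability by little.
-/

namespace Pool.Agent.H92.EV

open Pool.Agent.H12.EV

lemma Op_le {f g : ℕ → ℝ → ℝ → ℝ} {L R : ℝ}
    (h : ∀ s, s < 6 → ∀ k : ℝ, (k = 2 ∨ k = 3 ∨ k = 1 / 5) →
      f s (k * L) (k * R) ≤ g s (k * L) (k * R)) (r : ℕ) :
    Op f r L R ≤ Op g r L R := by
  have h2 : ∀ s, s < 6 → f s (2 * L) (2 * R) ≤ g s (2 * L) (2 * R) :=
    fun s hs => h s hs 2 (Or.inl rfl)
  have h3 : ∀ s, s < 6 → f s (3 * L) (3 * R) ≤ g s (3 * L) (3 * R) :=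
    fun s hs => h s hs 3 (Or.inr (Or.inl rfl))
  have h5 : ∀ s, s < 6 → f s (L / 5) (R / 5) ≤ g s (L / 5) (R / 5) := by
    intro s hs
    have := h s hs (1 / 5) (Or.inr (Or.inr rfl))
    rw [one_div_mul_eq_div, one_div_mul_eq_div] at this
    exact this
  unfold Op
  split_ifs
  · linarith [h2 0 (by norm_num), h2 3 (by norm_num)]
  · exact h5 0 (by norm_num)
  · linarith [h2 1 (by norm_num), h2 4 (by norm_num)]
  · linarith [h3 1 (by norm_num), h3 3 (by norm_num), h3 5 (by norm_num)]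
  · linarith [h2 2 (by norm_num), h2 5 (by norm_num)]
  · exact h5 2 (by norm_num)

lemma Op_scale (f : ℕ → ℝ → ℝ → ℝ) (a : ℝ) (r : ℕ) (L R : ℝ) :
    Op (fun s L R => f s L (a * R)) r L R = Op f r L (a * R) := by
  have e2 : a * (2 * R) = 2 * (a * R) := by ring
  have e3 : a * (3 * R) = 3 * (a * R) := by ring
  have e5 : a * (R / 5) = a * R / 5 := by ring
  unfold Op
  simp only [e2, e3, e5]

lemma Op_add (f g : ℕ → ℝ → ℝ → ℝ) (c : ℝ) (r : ℕ) (L R : ℝ) :
    Op (fun s L R => f s L R + c * g s L R) r L R = Op f r L R + c * Op g r L R := by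
  unfold Op
  split_ifs <;> ring

lemma Op_one (r : ℕ) (L R : ℝ) : Op (fun _ _ _ => (1 : ℝ)) r L R = 1 := by
  unfold Op
  split_ifs <;> norm_num

lemma k_pos {k : ℝ} (hk : k = 2 ∨ k = 3 ∨ k = 1 / 5) : 0 < k := by
  rcases hk with rfl | rfl | rfl <;> norm_num

lemma Phi_step (i r : ℕ) {L R : ℝ} (hL : 1 < L) (hR : R ≤ 1) :
    Phi (i + 1) r L R = Op (Phi i) r L R := by
  have : Phi (i + 1) r L R = if 1 < R then 0 else if L ≤ 1 then 1 else Op (Phi i) r L R := rfl
  rw [this, if_neg (not_lt.mpr hR), if_neg (not_le.mpr hL)]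

lemma Phi_zero (r : ℕ) {L R : ℝ} (hL : 1 < L) : Phi 0 r L R = 0 := by
  unfold Phi
  rw [if_neg (not_le.mpr hL)]
  split_ifs <;> rfl

lemma Phi_le_rpow {θ : ℝ} {v : ℕ → ℝ} (h : Par θ v) {C : ℝ} (hC : 0 < C)
    (hv : ∀ r, r < 6 → 1 ≤ C * v r) (i : ℕ) :
    ∀ r : ℕ, r < 6 → ∀ L R : ℝ, 0 < L → Phi i r L R ≤ C * (v r * L ^ (-θ)) := by
  have hpos : ∀ r, r < 6 → ∀ L : ℝ, 0 < L → 0 ≤ C * (v r * L ^ (-θ)) := fun r hr L hL =>
    mul_nonneg hC.le (mul_nonneg (h.vpos r hr).le (Real.rpow_nonneg hL.le _))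
  have hsmall : ∀ r, r < 6 → ∀ L : ℝ, 0 < L → L ≤ 1 → 1 ≤ C * (v r * L ^ (-θ)) := by
    intro r hr L hL hL1
    have h1 : 1 ≤ L ^ (-θ) :=
      Real.one_le_rpow_of_pos_of_le_one_of_nonpos hL hL1 (by linarith [h.hθ1])
    have h2 := hv r hr
    calc (1 : ℝ) ≤ C * v r * 1 := by linarith
      _ ≤ C * v r * L ^ (-θ) := mul_le_mul_of_nonneg_left h1 (by linarith)
      _ = C * (v r * L ^ (-θ)) := by ring
  induction i with
  | zero =>
    intro r hr L R hL
    by_cases hL1 : L ≤ 1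
    · exact (Phi_le_one _ _ _ _).trans (hsmall r hr L hL hL1)
    · rw [Phi_zero r (not_le.mp hL1)]
      exact hpos r hr L hL
  | succ i ih =>
    intro r hr L R hL
    by_cases hL1 : L ≤ 1
    · exact (Phi_le_one _ _ _ _).trans (hsmall r hr L hL hL1)
    · by_cases hR : R ≤ 1
      · rw [Phi_step i r (not_le.mp hL1) hR]
        have h1 : Op (Phi i) r L R ≤
            Op (fun s L R => (0 : ℝ) + C * (fun r L _ => v r * L ^ (-θ)) s L R) r L R := by
          refine Op_le ?_ r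
          intro s hs k hk
          beta_reduce
          rw [zero_add]
          exact ih s hs _ _ (mul_pos (k_pos hk) hL)
        refine h1.trans (le_of_eq ?_)
        rw [Op_add (fun _ _ _ => (0 : ℝ)) (fun r L _ => v r * L ^ (-θ)) C r L R, Op_v h hr hL]
        have : Op (fun _ _ _ => (0 : ℝ)) r L R = 0 := by
          unfold Op
          split_ifs <;> norm_num
        rw [this, zero_add]
      · refine (Phi_le_F _ _ _ _).trans ?_
        rw [F_zero (not_le.mp hR)]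
        exact hpos r hr L hL

/-- The crude bound for the model probability. -/
theorem F_le_rpow {θ : ℝ} {v : ℕ → ℝ} (h : Par θ v) :
    ∃ C : ℝ, 0 < C ∧ ∀ r : ℕ, r < 6 → ∀ L R : ℝ, 0 < L → F r L R ≤ C * L ^ (-θ) := by
  set A : ℝ := ∑ r ∈ Finset.range 6, 1 / v r with hA
  set B : ℝ := ∑ r ∈ Finset.range 6, v r with hB
  have hA1 : ∀ r, r < 6 → 1 / v r ≤ A := fun r hr =>
    Finset.single_le_sum (f := fun r => 1 / v r)
      (fun s hs => (one_div_pos.mpr (h.vpos s (Finset.mem_range.mp hs))).le)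
      (Finset.mem_range.mpr hr)
  have hB1 : ∀ r, r < 6 → v r ≤ B := fun r hr =>
    Finset.single_le_sum (f := fun r => v r)
      (fun s hs => (h.vpos s (Finset.mem_range.mp hs)).le) (Finset.mem_range.mpr hr)
  have hA0 : 0 < A := lt_of_lt_of_le (one_div_pos.mpr (h.vpos 0 (by norm_num))) (hA1 0 (by norm_num))
  have hB0 : 0 < B := lt_of_lt_of_le (h.vpos 0 (by norm_num)) (hB1 0 (by norm_num))
  refine ⟨A * B, mul_pos hA0 hB0, ?_⟩
  intro r hr L R hL
  refine F_le_of ?_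
  intro i
  have hAv : ∀ r, r < 6 → 1 ≤ A * v r := by
    intro r hr
    have h1 := mul_le_mul_of_nonneg_right (hA1 r hr) (h.vpos r hr).le
    rwa [one_div_mul_cancel (h.vpos r hr).ne'] at h1
  have h1 := Phi_le_rpow h hA0 hAv i r hr L R hL
  refine h1.trans ?_
  rw [mul_assoc]
  exact mul_le_mul_of_nonneg_left
    (mul_le_mul_of_nonneg_right (hB1 r hr) (Real.rpow_nonneg hL.le _)) hA0.le

/-- No dip ever: the difference is controlled by the invariant ratio. -/
lemma diff_le {θ : ℝ} {C : ℝ} (hC : 0 < C) (hθ : 0 < θ)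
    (hF : ∀ r : ℕ, r < 6 → ∀ L R : ℝ, 0 < L → F r L R ≤ C * L ^ (-θ)) {a : ℝ} (i : ℕ) :
    ∀ r : ℕ, r < 6 → ∀ L R : ℝ, 0 < L → 0 < R →
      Phi i r L (a * R) ≤ F r L R + C * (R / L) ^ θ := by
  have hpos : ∀ L R : ℝ, 0 < L → 0 < R → 0 ≤ C * (R / L) ^ θ := fun L R hL hR =>
    mul_nonneg hC.le (Real.rpow_nonneg (div_pos hR hL).le _)
  have hbig : ∀ i r : ℕ, r < 6 → ∀ L R : ℝ, 0 < L → 1 < R →
      Phi i r L (a * R) ≤ F r L R + C * (R / L) ^ θ := by
    intro i r hr L R hL hR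
    have h1 := (Phi_le_F i r L (a * R)).trans (hF r hr L (a * R) hL)
    have h2 : L ^ (-θ) ≤ (R / L) ^ θ := by
      rw [Real.div_rpow (by linarith) hL.le, Real.rpow_neg hL.le, ← one_div]
      exact div_le_div_of_nonneg_right (Real.one_le_rpow hR.le hθ.le) (Real.rpow_nonneg hL.le _)
    have h3 := F_nonneg r L R
    have h4 := mul_le_mul_of_nonneg_left h2 hC.le
    linarith
  induction i with
  | zero =>
    intro r hr L R hL hR
    by_cases hR1 : R ≤ 1
    · by_cases hL1 : L ≤ 1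
      · rw [F_one hL1 hR1]
        linarith [Phi_le_one 0 r L (a * R), hpos L R hL hR]
      · rw [Phi_zero r (not_le.mp hL1)]
        linarith [F_nonneg r L R, hpos L R hL hR]
    · exact hbig 0 r hr L R hL (not_le.mp hR1)
  | succ i ih =>
    intro r hr L R hL hR
    by_cases hR1 : R ≤ 1
    · by_cases hL1 : L ≤ 1
      · rw [F_one hL1 hR1]
        linarith [Phi_le_one (i + 1) r L (a * R), hpos L R hL hR]
      · by_cases haR : a * R ≤ 1
        · rw [Phi_step i r (not_le.mp hL1) haR, F_step (not_le.mp hL1) hR1,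
            ← Op_scale (Phi i) a r L R]
          have h1 : Op (fun s L R => Phi i s L (a * R)) r L R ≤
              Op (fun s L' R' => F s L' R' + (C * (R / L) ^ θ) * (fun _ _ _ => (1 : ℝ)) s L' R')
                r L R := by
            refine Op_le ?_ r
            intro s hs k hk
            have hk0 := k_pos hk
            have h2 := ih s hs (k * L) (k * R) (mul_pos hk0 hL) (mul_pos hk0 hR)
            rw [mul_div_mul_left R L hk0.ne'] at h2
            beta_reduce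
            rw [mul_one]
            exact h2
          refine h1.trans (le_of_eq ?_)
          rw [Op_add F (fun _ _ _ => (1 : ℝ)) (C * (R / L) ^ θ) r L R, Op_one, mul_one]
        · have h0 := Phi_le_F (i + 1) r L (a * R)
          rw [F_zero (not_le.mp haR)] at h0
          linarith [F_nonneg r L R, hpos L R hL hR]
    · exact hbig (i + 1) r hr L R hL (not_le.mp hR1)

/-- No barrier met within `i` steps lies between `1` and `1/a`. -/
def ND (a : ℝ) : ℕ → ℝ → Prop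
  | 0, _ => True
  | i + 1, R => ∀ k : ℝ, (k = 2 ∨ k = 3 ∨ k = 1 / 5) →
      (k * R ≤ 1 ∨ 1 < a * (k * R)) ∧ ND a i (k * R)

lemma exists_ND (i : ℕ) : ∀ R : ℝ, 0 < R → ∃ ε₀ : ℝ, 0 < ε₀ ∧ ε₀ < 1 ∧
    ∀ ε : ℝ, 0 < ε → ε ≤ ε₀ → ND (1 - ε) i R := by
  induction i with
  | zero =>
    intro R _
    exact ⟨1 / 2, by norm_num, by norm_num, fun ε _ _ => trivial⟩
  | succ i ih =>
    intro R hR
    have key : ∀ k : ℝ, 0 < k → ∃ ε₀ : ℝ, 0 < ε₀ ∧ ε₀ < 1 ∧
        ∀ ε : ℝ, 0 < ε → ε ≤ ε₀ →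
          (k * R ≤ 1 ∨ 1 < (1 - ε) * (k * R)) ∧ ND (1 - ε) i (k * R) := by
      intro k hk
      obtain ⟨e, he0, he1, he⟩ := ih (k * R) (mul_pos hk hR)
      by_cases hkR : k * R ≤ 1
      · exact ⟨e, he0, he1, fun ε h0 h1 => ⟨Or.inl hkR, he ε h0 h1⟩⟩
      · have hkR' := not_le.mp hkR
        have hpos : 0 < (k * R - 1) / (2 * (k * R)) := div_pos (by linarith) (by linarith)
        refine ⟨min e ((k * R - 1) / (2 * (k * R))), lt_min he0 hpos,
          lt_of_le_of_lt (min_le_left _ _) he1, ?_⟩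
        intro ε h0 h1
        refine ⟨Or.inr ?_, he ε h0 (h1.trans (min_le_left _ _))⟩
        have h2 : ε ≤ (k * R - 1) / (2 * (k * R)) := h1.trans (min_le_right _ _)
        rw [le_div_iff₀ (by linarith)] at h2
        nlinarith
    obtain ⟨e2, a2, b2, c2⟩ := key 2 (by norm_num)
    obtain ⟨e3, a3, b3, c3⟩ := key 3 (by norm_num)
    obtain ⟨e5, a5, b5, c5⟩ := key (1 / 5) (by norm_num)
    refine ⟨min e2 (min e3 e5), lt_min a2 (lt_min a3 a5), lt_of_le_of_lt (min_le_left _ _) b2, ?_⟩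
    intro ε h0 h1 k hk
    have m2 : ε ≤ e2 := h1.trans (min_le_left _ _)
    have m3 : ε ≤ e3 := h1.trans ((min_le_right _ _).trans (min_le_left _ _))
    have m5 : ε ≤ e5 := h1.trans ((min_le_right _ _).trans (min_le_right _ _))
    rcases hk with rfl | rfl | rfl
    · exact c2 ε h0 m2
    · exact c3 ε h0 m3
    · exact c5 ε h0 m5

lemma decay {θ : ℝ} {C : ℝ} (hC : 0 < C) {a : ℝ} (ha : a ≤ 1)
    (hD : ∀ r : ℕ, r < 6 → ∀ L R : ℝ, 0 < L → 0 < R →
      F r L (a * R) ≤ F r L R + C * (R / L) ^ θ) (i : ℕ) :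
    ∀ r : ℕ, r < 6 → ∀ L R : ℝ, 0 < L → 0 < R → R ≤ 1 → ND a i R →
      F r L (a * R) ≤ F r L R + (15 * C * (19 / 20) ^ i * (R / L) ^ (θ - 1)) * (w r / L) := by
  have hpos : ∀ i r : ℕ, ∀ L R : ℝ, 0 < L → 0 < R →
      0 ≤ (15 * C * (19 / 20) ^ i * (R / L) ^ (θ - 1)) * (w r / L) := fun i r L R hL hR =>
    mul_nonneg (mul_nonneg (by positivity) (Real.rpow_nonneg (div_pos hR hL).le _))
      (div_pos (w_pos r) hL).le
  induction i with
  | zero =>
    intro r hr L R hL hR hR1 _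
    have h1 := hD r hr L R hL hR
    have h2 : (R / L) ^ θ = (R / L) ^ (θ - 1) * (R / L) := by
      rw [← Real.rpow_add_one (div_pos hR hL).ne', sub_add_cancel]
    have h3 : R / L ≤ 15 * (w r / L) := by
      rw [← mul_div_assoc]
      refine div_le_div_of_nonneg_right ?_ hL.le
      linarith [w_ge r]
    have h4 : (R / L) ^ θ ≤ (R / L) ^ (θ - 1) * (15 * (w r / L)) := by
      rw [h2]
      exact mul_le_mul_of_nonneg_left h3 (Real.rpow_nonneg (div_pos hR hL).le _)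
    have h5 := mul_le_mul_of_nonneg_left h4 hC.le
    refine h1.trans ?_
    rw [pow_zero]
    linarith
  | succ i ih =>
    intro r hr L R hL hR hR1 hN
    have haR : a * R ≤ 1 := by nlinarith
    by_cases hL1 : L ≤ 1
    · rw [F_one hL1 hR1]
      linarith [F_le_one r L (a * R), hpos (i + 1) r L R hL hR]
    · rw [F_step (not_le.mp hL1) haR, F_step (not_le.mp hL1) hR1, ← Op_scale F a r L R]
      have h1 : Op (fun s L R => F s L (a * R)) r L R ≤
          Op (fun s L' R' => F s L' R' + (15 * C * (19 / 20) ^ i * (R / L) ^ (θ - 1)) *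
            (fun r L _ => w r / L) s L' R') r L R := by
        refine Op_le ?_ r
        intro s hs k hk
        have hk0 := k_pos hk
        obtain ⟨hN1, hN2⟩ := hN k hk
        beta_reduce
        rcases hN1 with hN1 | hN1
        · have h2 := ih s hs (k * L) (k * R) (mul_pos hk0 hL) (mul_pos hk0 hR) hN1 hN2
          rw [mul_div_mul_left R L hk0.ne'] at h2
          exact h2
        · rw [F_zero hN1]
          have h3 := hpos i s (k * L) (k * R) (mul_pos hk0 hL) (mul_pos hk0 hR)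
          rw [mul_div_mul_left R L hk0.ne'] at h3
          linarith [F_nonneg s (k * L) (k * R)]
      refine h1.trans ?_
      rw [Op_add F (fun r L _ => w r / L) (15 * C * (19 / 20) ^ i * (R / L) ^ (θ - 1)) r L R]
      have h4 := mul_le_mul_of_nonneg_left (Op_w hr (R := R) hL)
        (show 0 ≤ 15 * C * (19 / 20 : ℝ) ^ i * (R / L) ^ (θ - 1) from
          mul_nonneg (by positivity) (Real.rpow_nonneg (div_pos hR hL).le _))
      have h5 : 15 * C * (19 / 20 : ℝ) ^ (i + 1) * (R / L) ^ (θ - 1) * (w r / L) =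
          15 * C * (19 / 20 : ℝ) ^ i * (R / L) ^ (θ - 1) * (19 / 20 * (w r / L)) := by
        rw [pow_succ]
        ring
      rw [h5]
      linarith

/-- Lowering the barrier by a small factor changes the probability by little. -/
theorem dip {θ : ℝ} {v : ℕ → ℝ} (h : Par θ v) {η : ℝ} (hη : 0 < η) :
    ∃ ε₀ : ℝ, 0 < ε₀ ∧ ε₀ < 1 ∧ ∀ ε : ℝ, 0 < ε → ε ≤ ε₀ →
      ∀ r : ℕ, r < 6 → ∀ L : ℝ, 1 ≤ L → F r L (1 - ε) ≤ F r L 1 + η * L ^ (-θ) := by
  obtain ⟨C, hC, hF⟩ := F_le_rpow h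
  have hθ : 0 < θ := by linarith [h.hθ1]
  obtain ⟨i, hi⟩ := exists_pow_lt_of_lt_one (show 0 < η / (15 * C) by positivity)
    (show (19 / 20 : ℝ) < 1 by norm_num)
  obtain ⟨ε₀, h0, h1, h2⟩ := exists_ND i 1 one_pos
  refine ⟨ε₀, h0, h1, ?_⟩
  intro ε he he' r hr L hL
  have hL0 : 0 < L := by linarith
  have hD : ∀ r : ℕ, r < 6 → ∀ L R : ℝ, 0 < L → 0 < R →
      F r L ((1 - ε) * R) ≤ F r L R + C * (R / L) ^ θ := fun r hr L R hL hR =>
    F_le_of (fun i => diff_le hC hθ hF i r hr L R hL hR)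
  have h3 := decay hC (by linarith) hD i r hr L 1 hL0 one_pos le_rfl (h2 ε he he')
  rw [mul_one] at h3
  refine h3.trans ?_
  have h4 : 15 * C * (19 / 20 : ℝ) ^ i * (1 / L) ^ (θ - 1) * (w r / L) =
      (15 * C * (19 / 20 : ℝ) ^ i * w r) * L ^ (-θ) := by
    have h5 : (1 / L) ^ (θ - 1) / L = L ^ (-θ) := by
      rw [Real.div_rpow zero_le_one hL0.le, Real.one_rpow, Real.rpow_neg hL0.le,
        Real.rpow_sub_one hL0.ne']
      field_simp
    rw [← h5]
    ring
  rw [h4]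
  have h6 : 15 * C * (19 / 20 : ℝ) ^ i * w r ≤ η := by
    rw [lt_div_iff₀ (by positivity)] at hi
    have h7 : 15 * C * (19 / 20 : ℝ) ^ i * w r ≤ 15 * C * (19 / 20 : ℝ) ^ i * 1 :=
      mul_le_mul_of_nonneg_left (w_le_one r) (by positivity)
    linarith
  have h8 := mul_le_mul_of_nonneg_right h6 (Real.rpow_nonneg hL0.le (-θ))
  linarith

end Pool.Agent.H92.EV
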